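import Pool.Agent.W259.GP.Defs

/-!
# Mehler's formula (GP-H2)
-/

open MeasureTheory ProbabilityTheory Polynomial Filter
open scoped Nat NNReal Topology

namespace Pool.Agent.W342.GP

/-- probabilists' Hermite polynomial with real coefficients -/
noncomputable def HP (d : ℕ) : ℝ[X] := (Polynomial.hermite d).map (Int.castRingHom ℝ)

lemma HP_zero : HP 0 = 1 := by simp [HP]

lemma HP_succ (d : ℕ) : HP (d + 1) = X * HP d - derivative (HP d) := by
  unfold HP
  rw [Polynomial.hermite_succ, Polynomial.map_sub, Polynomial.map_mul, Polynomial.map_X,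
    Polynomial.derivative_map]

lemma HP_deriv (d : ℕ) : derivative (HP (d + 1)) = C ((d : ℝ) + 1) * HP d := by
  induction d with
  | zero =>
    rw [HP_succ]
    simp [HP]
  | succ d ih =>
    rw [HP_succ (d + 1), derivative_sub, derivative_mul, ih, derivative_mul, derivative_X,
      derivative_C]
    have h := HP_succ d
    have h2 : HP (d + 1) + C ((d : ℝ) + 1) * HP (d + 1) =
        C (((d + 1 : ℕ) : ℝ) + 1) * HP (d + 1) := by
      have : C (((d + 1 : ℕ) : ℝ) + 1) = (1 : ℝ[X]) + C ((d : ℝ) + 1) := by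
        rw [← C_1, ← C_add]
        congr 1
        push_cast
        ring
      rw [this]
      ring
    rw [← h2]
    nth_rewrite 3 [h]
    ring

lemma HP_rec (d : ℕ) (u : ℝ) :
    (HP (d + 2)).eval u = u * (HP (d + 1)).eval u - ((d : ℝ) + 1) * (HP d).eval u := by
  rw [HP_succ, HP_deriv]
  simp

lemma HP_one_eval (u : ℝ) : (HP 1).eval u = u := by
  rw [HP_succ, HP_zero]
  simp

/-! ### Integrals of polynomials -/

lemma pow_int (k : ℕ) (v : ℝ≥0) :
    Integrable (fun x : ℝ => x ^ k) (gaussianReal 0 v) := by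
  have h := memLp_id_gaussianReal (μ := 0) (v := v) (k : ℝ≥0)
  have h1 : MemLp (id : ℝ → ℝ) (k : ENNReal) (gaussianReal 0 v) := by
    exact_mod_cast h
  have h2 := h1.integrable_norm_pow'
  refine (integrable_norm_iff ?_).1 ?_
  · exact (continuous_pow k).aestronglyMeasurable
  · have h3 : (fun x : ℝ => ‖x ^ k‖) = fun x : ℝ => ‖id x‖ ^ k := by
      funext x
      rw [norm_pow, id]
    rw [h3]
    exact h2

lemma poly_int (p : ℝ[X]) (v : ℝ≥0) :
    Integrable (fun x => p.eval x) (gaussianReal 0 v) := by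
  have h : (fun x : ℝ => p.eval x) = fun x => ∑ i ∈ Finset.range (p.natDegree + 1),
      p.coeff i * x ^ i := by
    funext x
    exact Polynomial.eval_eq_sum_range x
  rw [h]
  exact integrable_finsetSum _ fun i _ => (pow_int i v).const_mul _

lemma stein_int (q : ℝ[X]) :
    Integrable (fun x => gaussianPDFReal 0 1 x * q.eval x) := by
  have h := poly_int q 1
  rw [gaussianReal_of_var_ne_zero 0 one_ne_zero,
    integrable_withDensity_iff_integrable_smul' (measurable_gaussianPDF _ _)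
      (Filter.Eventually.of_forall fun _ => gaussianPDF_lt_top)] at h
  simpa only [toReal_gaussianPDF, smul_eq_mul] using h

lemma stein_deriv (x : ℝ) :
    HasDerivAt (gaussianPDFReal 0 1) (-(x * gaussianPDFReal 0 1 x)) x := by
  have h5 : gaussianPDFReal 0 1 = fun y : ℝ => (Real.sqrt (2 * Real.pi * ((1 : ℝ≥0) : ℝ)))⁻¹ *
      Real.exp (-y ^ 2 / 2) := by
    funext y
    unfold gaussianPDFReal
    rw [sub_zero, NNReal.coe_one, mul_one, mul_one]
  have h1 : HasDerivAt (fun y : ℝ => -y ^ 2 / 2) (-x) x := by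
    have h2 : HasDerivAt (fun y : ℝ => y ^ 2) (2 * x) x := by
      have := hasDerivAt_pow 2 x
      simpa using this
    have h3 : HasDerivAt (fun y : ℝ => -y ^ 2 / 2) (-(2 * x) / 2) x := (h2.fun_neg).div_const 2
    exact h3.congr_deriv (by ring)
  have h4 := (h1.exp).const_mul ((Real.sqrt (2 * Real.pi * ((1 : ℝ≥0) : ℝ)))⁻¹)
  rw [h5]
  exact h4.congr_deriv (by ring)

lemma stein (p : ℝ[X]) :
    ∫ x, x * p.eval x ∂(gaussianReal 0 1) = ∫ x, p.derivative.eval x ∂(gaussianReal 0 1) := by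
  rw [integral_gaussianReal_eq_integral_smul one_ne_zero,
    integral_gaussianReal_eq_integral_smul one_ne_zero]
  have h1 := integral_mul_deriv_eq_deriv_mul_of_integrable
    (u := fun x => p.eval x) (u' := fun x => p.derivative.eval x)
    (v := gaussianPDFReal 0 1) (v' := fun x => -(x * gaussianPDFReal 0 1 x))
    (fun x _ => p.hasDerivAt x) (fun x _ => stein_deriv x)
    (by
      have := (stein_int (X * p)).neg
      refine this.congr (Filter.Eventually.of_forall fun x => ?_)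
      simp only [Pi.neg_apply, Pi.mul_apply, eval_mul, eval_X]
      ring)
    (by
      refine (stein_int p.derivative).congr (Filter.Eventually.of_forall fun x => ?_)
      simp only [Pi.mul_apply]
      ring)
    (by
      refine (stein_int p).congr (Filter.Eventually.of_forall fun x => ?_)
      simp only [Pi.mul_apply]
      ring)
  have e1 : ∫ x, gaussianPDFReal 0 1 x • (x * p.eval x) =
      - ∫ x, p.eval x * -(x * gaussianPDFReal 0 1 x) := by
    rw [← integral_neg]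
    refine integral_congr_ae (Filter.Eventually.of_forall fun x => ?_)
    simp only [smul_eq_mul]
    ring
  have e2 : ∫ x, gaussianPDFReal 0 1 x • p.derivative.eval x =
      ∫ x, p.derivative.eval x * gaussianPDFReal 0 1 x := by
    refine integral_congr_ae (Filter.Eventually.of_forall fun x => ?_)
    simp only [smul_eq_mul]
    ring
  rw [e1, e2, h1, neg_neg]

/-! ### Complex polynomials -/

lemma cmono_int (k : ℕ) (a : ℂ) :
    Integrable (fun x : ℝ => a * (x : ℂ) ^ k) (gaussianReal 0 1) := by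
  have h := (pow_int k 1).ofReal (𝕜 := ℂ)
  refine (h.const_mul a).congr (Filter.Eventually.of_forall fun x => ?_)
  simp

lemma cpoly_int (p : ℂ[X]) :
    Integrable (fun x : ℝ => p.eval (x : ℂ)) (gaussianReal 0 1) := by
  induction p using Polynomial.induction_on' with
  | add p q hp hq =>
    refine (hp.add hq).congr (Filter.Eventually.of_forall fun x => ?_)
    simp
  | monomial n a =>
    refine (cmono_int n a).congr (Filter.Eventually.of_forall fun x => ?_)
    simp

lemma cstein (p : ℂ[X]) :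
    ∫ x : ℝ, (x : ℂ) * p.eval (x : ℂ) ∂(gaussianReal 0 1) =
      ∫ x : ℝ, p.derivative.eval (x : ℂ) ∂(gaussianReal 0 1) := by
  induction p using Polynomial.induction_on' with
  | add p q hp hq =>
    have i1 : Integrable (fun x : ℝ => (x : ℂ) * p.eval (x : ℂ)) (gaussianReal 0 1) := by
      refine (cpoly_int (X * p)).congr (Filter.Eventually.of_forall fun x => ?_)
      simp
    have i2 : Integrable (fun x : ℝ => (x : ℂ) * q.eval (x : ℂ)) (gaussianReal 0 1) := by
      refine (cpoly_int (X * q)).congr (Filter.Eventually.of_forall fun x => ?_)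
      simp
    have e1 : ∀ x : ℝ, (x : ℂ) * (p + q).eval (x : ℂ) =
        (x : ℂ) * p.eval (x : ℂ) + (x : ℂ) * q.eval (x : ℂ) := by
      intro x
      rw [eval_add, mul_add]
    have e2 : ∀ x : ℝ, (derivative (p + q)).eval (x : ℂ) =
        (derivative p).eval (x : ℂ) + (derivative q).eval (x : ℂ) := by
      intro x
      rw [derivative_add, eval_add]
    simp_rw [e1, e2]
    rw [integral_add i1 i2, integral_add (cpoly_int _) (cpoly_int _), hp, hq]
  | monomial n a =>
    have h := stein (X ^ n)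
    have e1 : ∀ x : ℝ, (x : ℂ) * (monomial n a).eval (x : ℂ) =
        a * ((x * ((X : ℝ[X]) ^ n).eval x : ℝ) : ℂ) := by
      intro x
      simp only [eval_monomial, eval_pow, eval_X]
      push_cast
      ring
    have e2 : ∀ x : ℝ, (derivative (monomial n a)).eval (x : ℂ) =
        a * (((derivative ((X : ℝ[X]) ^ n)).eval x : ℝ) : ℂ) := by
      intro x
      simp only [derivative_monomial, eval_monomial, derivative_X_pow, eval_mul, eval_pow, eval_X]
      simp
      ring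
    simp_rw [e1, e2]
    rw [integral_const_mul, integral_const_mul, integral_complex_ofReal, integral_complex_ofReal,
      h]

/-- the complex variable -/
noncomputable def w (u g : ℝ) : ℂ := (u : ℂ) + Complex.I * g

lemma w_norm_sq (u g : ℝ) : ‖w u g‖ ^ 2 = u ^ 2 + g ^ 2 := by
  rw [← Complex.normSq_eq_norm_sq]
  unfold w
  simp [Complex.normSq_apply]
  ring

lemma w_cont (u : ℝ) : Continuous (w u) := by
  unfold w
  fun_prop

lemma wpow_eq (u : ℝ) (k : ℕ) (g : ℝ) :
    w u g ^ k = ((C (u : ℂ) + C Complex.I * X) ^ k).eval (g : ℂ) := by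
  simp [w]

lemma wpow_int (u : ℝ) (k : ℕ) : Integrable (fun g : ℝ => w u g ^ k) (gaussianReal 0 1) := by
  refine (cpoly_int ((C (u : ℂ) + C Complex.I * X) ^ k)).congr
    (Filter.Eventually.of_forall fun g => ?_)
  simp only [wpow_eq]

lemma wnorm_int (u : ℝ) (k : ℕ) : Integrable (fun g : ℝ => ‖w u g‖ ^ k) (gaussianReal 0 1) := by
  have h := (wpow_int u k).norm
  simpa only [norm_pow] using h

/-- `He_k(u) = ∫ (u + i g)^k dμ(g)` -/
lemma He_eq (u : ℝ) (k : ℕ) :
    ∫ g, w u g ^ k ∂(gaussianReal 0 1) = (((HP k).eval u : ℝ) : ℂ) := by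
  induction k using Nat.strong_induction_on with
  | _ k ih =>
    rcases k with _ | _ | k
    · simp [HP_zero]
    · have e : ∀ g : ℝ, w u g ^ (0 + 1) = (u : ℂ) + Complex.I * ((g : ℂ) * (1 : ℂ[X]).eval (g : ℂ)) := by
        intro g
        simp [w]
      simp_rw [e]
      have hi : Integrable (fun g : ℝ => (g : ℂ) * (1 : ℂ[X]).eval (g : ℂ)) (gaussianReal 0 1) := by
        refine (cpoly_int X).congr (Filter.Eventually.of_forall fun g => ?_)
        simp
      rw [integral_add (integrable_const _) (hi.const_mul _), integral_const_mul, cstein]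
      simp [HP_one_eval]
    · have e : ∀ g : ℝ, w u g ^ (k + 1 + 1) = (u : ℂ) * w u g ^ (k + 1) +
          Complex.I * ((g : ℂ) * ((C (u : ℂ) + C Complex.I * X) ^ (k + 1)).eval (g : ℂ)) := by
        intro g
        rw [← wpow_eq, pow_succ]
        nth_rewrite 2 [w]
        ring
      have hi : Integrable (fun g : ℝ => (g : ℂ) *
          ((C (u : ℂ) + C Complex.I * X) ^ (k + 1)).eval (g : ℂ)) (gaussianReal 0 1) := by
        refine (cpoly_int (X * (C (u : ℂ) + C Complex.I * X) ^ (k + 1))).congr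
          (Filter.Eventually.of_forall fun g => ?_)
        simp
      have e2 : ∀ g : ℝ, (derivative ((C (u : ℂ) + C Complex.I * X) ^ (k + 1))).eval (g : ℂ) =
          (((k : ℂ) + 1) * Complex.I) * w u g ^ k := by
        intro g
        rw [wpow_eq, derivative_pow]
        simp
        ring
      simp_rw [e]
      rw [integral_add ((wpow_int u (k + 1)).const_mul _) (hi.const_mul _), integral_const_mul,
        integral_const_mul, cstein]
      simp_rw [e2]
      rw [integral_const_mul, ih (k + 1) (by omega), ih k (by omega), HP_rec]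
      push_cast
      linear_combination (((k : ℂ) + 1) * ((HP k).eval u : ℝ)) * Complex.I_sq

lemma He_le (u : ℝ) (k : ℕ) :
    |(HP k).eval u| ≤ ∫ g, ‖w u g‖ ^ k ∂(gaussianReal 0 1) := by
  have h := norm_integral_le_integral_norm (μ := gaussianReal 0 1) (fun g => w u g ^ k)
  rw [He_eq, Complex.norm_real, Real.norm_eq_abs] at h
  simpa only [norm_pow] using h

/-! ### Exponential integrability -/

lemma expsq_int (r : ℝ) (hr : r < 1) :
    Integrable (fun g : ℝ => Real.exp (r * g ^ 2 / 2)) (gaussianReal 0 1) := by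
  rw [gaussianReal_of_var_ne_zero 0 one_ne_zero,
    integrable_withDensity_iff_integrable_smul' (measurable_gaussianPDF _ _)
      (Filter.Eventually.of_forall fun _ => gaussianPDF_lt_top)]
  simp only [toReal_gaussianPDF, smul_eq_mul]
  have h := (integrable_exp_neg_mul_sq (b := (1 - r) / 2) (by linarith)).const_mul
    ((Real.sqrt (2 * Real.pi))⁻¹)
  refine h.congr (Filter.Eventually.of_forall fun x => ?_)
  simp only [gaussianPDFReal, NNReal.coe_one, mul_one, sub_zero]
  rw [mul_assoc, ← Real.exp_add]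
  congr 2
  ring

/-- bounding function -/
lemma expw_le (a u g : ℝ) :
    Real.exp (a * ‖w u g‖) ≤ Real.exp (a ^ 2 + u ^ 2 / 4) * Real.exp (1 / 2 * g ^ 2 / 2) := by
  rw [← Real.exp_add, Real.exp_le_exp]
  have h := w_norm_sq u g
  nlinarith [sq_nonneg (2 * a - ‖w u g‖)]

lemma summ1 (t : ℂ) (u : ℝ) :
    Summable fun k : ℕ => ∫ g, ‖t ^ k / (k ! : ℂ) * w u g ^ k‖ ∂(gaussianReal 0 1) := by
  have hg := (expsq_int (1 / 2) (by norm_num)).const_mul (Real.exp (‖t‖ ^ 2 + u ^ 2 / 4))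
  refine summable_of_sum_range_le (c := ∫ g, Real.exp (‖t‖ ^ 2 + u ^ 2 / 4) *
    Real.exp (1 / 2 * g ^ 2 / 2) ∂(gaussianReal 0 1)) (fun k => integral_nonneg fun g =>
      norm_nonneg _) fun n => ?_
  rw [← integral_finsetSum _ fun k _ => ((wpow_int u k).const_mul _).norm]
  refine integral_mono (integrable_finsetSum _ fun k _ => ((wpow_int u k).const_mul _).norm) hg
    fun g => ?_
  refine le_trans ?_ (expw_le ‖t‖ u g)
  have h := Real.sum_le_exp_of_nonneg (x := ‖t‖ * ‖w u g‖) (by positivity) n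
  refine le_trans (le_of_eq ?_) h
  refine Finset.sum_congr rfl fun k _ => ?_
  rw [norm_mul, norm_div, norm_pow, norm_pow, Complex.norm_natCast, mul_pow]
  ring

lemma mgf (t : ℂ) : ∫ g : ℝ, Complex.exp (t * g) ∂(gaussianReal 0 1) = Complex.exp (t ^ 2 / 2) := by
  have h := complexMGF_id_gaussianReal (μ := 0) (v := 1) t
  rw [complexMGF] at h
  simpa using h

/-- the generating function of the Hermite polynomials -/
lemma gen (t : ℂ) (u : ℝ) :
    HasSum (fun k : ℕ => t ^ k / (k ! : ℂ) * (((HP k).eval u : ℝ) : ℂ))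
      (Complex.exp (t * u - t ^ 2 / 2)) := by
  have h := hasSum_integral_of_summable_integral_norm (μ := gaussianReal 0 1)
    (F := fun (k : ℕ) (g : ℝ) => t ^ k / (k ! : ℂ) * w u g ^ k)
    (fun k => (wpow_int u k).const_mul _) (summ1 t u)
  simp only [integral_const_mul, He_eq] at h
  have e : ∀ g : ℝ, ∑' k : ℕ, t ^ k / (k ! : ℂ) * w u g ^ k =
      Complex.exp (t * u) * Complex.exp ((t * Complex.I) * g) := by
    intro g
    have h1 : HasSum (fun k : ℕ => (t * w u g) ^ k / (k ! : ℂ)) (Complex.exp (t * w u g)) := by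
      rw [Complex.exp_eq_exp_ℂ]
      exact NormedSpace.expSeries_div_hasSum_exp (t * w u g)
    rw [← Complex.exp_add]
    have h2 : t * (u : ℂ) + t * Complex.I * g = t * w u g := by
      unfold w
      ring
    rw [h2, ← h1.tsum_eq]
    refine tsum_congr fun k => ?_
    rw [mul_pow]
    ring
  simp_rw [e] at h
  rw [integral_const_mul, mgf, ← Complex.exp_add] at h
  have e2 : t * (u : ℂ) + (t * Complex.I) ^ 2 / 2 = t * u - t ^ 2 / 2 := by
    rw [mul_pow, Complex.I_sq]
    ring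
  rwa [e2] at h


/-- the key bound for Mehler's formula -/
lemma summ2 (r u v : ℝ) (h0 : 0 ≤ r) (h1 : r < 1) :
    Summable fun k : ℕ => ∫ g, ‖(((r ^ k / (k ! : ℝ) * (HP k).eval u : ℝ) : ℂ)) * w v g ^ k‖
      ∂(gaussianReal 0 1) := by
  have hE := expsq_int r h1
  obtain ⟨E, hEd⟩ : ∃ E, E = ∫ g : ℝ, Real.exp (r * g ^ 2 / 2) ∂(gaussianReal 0 1) := ⟨_, rfl⟩
  refine summable_of_sum_range_le (c := Real.exp (r * (u ^ 2 + v ^ 2) / 2) * (E * E))
    (fun k => integral_nonneg fun g => norm_nonneg _) fun n => ?_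
  have e1 : ∀ k : ℕ, ∫ g, ‖(((r ^ k / (k ! : ℝ) * (HP k).eval u : ℝ) : ℂ)) * w v g ^ k‖
      ∂(gaussianReal 0 1) = r ^ k / (k ! : ℝ) * |(HP k).eval u| *
        ∫ g, ‖w v g‖ ^ k ∂(gaussianReal 0 1) := by
    intro k
    rw [← integral_const_mul]
    refine integral_congr_ae (Filter.Eventually.of_forall fun g => ?_)
    simp only [norm_mul, norm_pow, Complex.norm_real, Real.norm_eq_abs]
    rw [abs_of_nonneg (show 0 ≤ r ^ k / (k ! : ℝ) by positivity)]
  have e2 : ∀ k : ℕ, ∫ g, ‖(((r ^ k / (k ! : ℝ) * (HP k).eval u : ℝ) : ℂ)) * w v g ^ k‖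
      ∂(gaussianReal 0 1) ≤ ∫ g, (∫ g', r ^ k / (k ! : ℝ) * (‖w u g'‖ ^ k * ‖w v g‖ ^ k)
        ∂(gaussianReal 0 1)) ∂(gaussianReal 0 1) := by
    intro k
    rw [e1]
    have e3 : ∀ g, ∫ g', r ^ k / (k ! : ℝ) * (‖w u g'‖ ^ k * ‖w v g‖ ^ k) ∂(gaussianReal 0 1) =
        (r ^ k / (k ! : ℝ) * ∫ g', ‖w u g'‖ ^ k ∂(gaussianReal 0 1)) * ‖w v g‖ ^ k := by
      intro g
      rw [integral_const_mul, integral_mul_const]
      ring
    simp_rw [e3]
    rw [integral_const_mul]
    exact mul_le_mul_of_nonneg_right (mul_le_mul_of_nonneg_left (He_le u k) (by positivity))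
      (integral_nonneg fun g => by positivity)
  refine (Finset.sum_le_sum fun k _ => e2 k).trans ?_
  have i1 : ∀ (k : ℕ) (g : ℝ), Integrable (fun g' => r ^ k / (k ! : ℝ) *
      (‖w u g'‖ ^ k * ‖w v g‖ ^ k)) (gaussianReal 0 1) :=
    fun k g => ((wnorm_int u k).mul_const _).const_mul _
  have e3 : ∀ (k : ℕ) (g : ℝ), ∫ g', r ^ k / (k ! : ℝ) * (‖w u g'‖ ^ k * ‖w v g‖ ^ k)
      ∂(gaussianReal 0 1) =
        (r ^ k / (k ! : ℝ) * ∫ g', ‖w u g'‖ ^ k ∂(gaussianReal 0 1)) * ‖w v g‖ ^ k := by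
    intro k g
    rw [integral_const_mul, integral_mul_const]
    ring
  have i2 : ∀ k : ℕ, Integrable (fun g => ∫ g', r ^ k / (k ! : ℝ) *
      (‖w u g'‖ ^ k * ‖w v g‖ ^ k) ∂(gaussianReal 0 1)) (gaussianReal 0 1) := by
    intro k
    simp_rw [e3]
    exact (wnorm_int v k).const_mul _
  rw [← integral_finsetSum _ fun k _ => i2 k]
  have e4 : Real.exp (r * (u ^ 2 + v ^ 2) / 2) * (E * E) = ∫ g : ℝ, (∫ g' : ℝ,
      Real.exp (r * (u ^ 2 + v ^ 2) / 2) * (Real.exp (r * g' ^ 2 / 2) * Real.exp (r * g ^ 2 / 2))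
        ∂(gaussianReal 0 1)) ∂(gaussianReal 0 1) := by
    have e5 : ∀ g : ℝ, ∫ g' : ℝ, Real.exp (r * (u ^ 2 + v ^ 2) / 2) *
        (Real.exp (r * g' ^ 2 / 2) * Real.exp (r * g ^ 2 / 2)) ∂(gaussianReal 0 1) =
        (Real.exp (r * (u ^ 2 + v ^ 2) / 2) * E) * Real.exp (r * g ^ 2 / 2) := by
      intro g
      rw [integral_const_mul, integral_mul_const, ← hEd]
      ring
    simp_rw [e5]
    rw [integral_const_mul, ← hEd]
    ring
  rw [e4]
  refine integral_mono (integrable_finsetSum _ fun k _ => i2 k) ?_ fun g => ?_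
  · have e5 : ∀ g : ℝ, ∫ g' : ℝ, Real.exp (r * (u ^ 2 + v ^ 2) / 2) *
        (Real.exp (r * g' ^ 2 / 2) * Real.exp (r * g ^ 2 / 2)) ∂(gaussianReal 0 1) =
        (Real.exp (r * (u ^ 2 + v ^ 2) / 2) * E) * Real.exp (r * g ^ 2 / 2) := by
      intro g
      rw [integral_const_mul, integral_mul_const, ← hEd]
      ring
    simp_rw [e5]
    exact hE.const_mul _
  · show ∑ k ∈ Finset.range n, ∫ g', r ^ k / (k ! : ℝ) * (‖w u g'‖ ^ k * ‖w v g‖ ^ k)
      ∂(gaussianReal 0 1) ≤ _
    rw [← integral_finsetSum _ fun k _ => i1 k g]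
    refine integral_mono (integrable_finsetSum _ fun k _ => i1 k g)
      ((hE.mul_const _).const_mul _) fun g' => ?_
    have h := Real.sum_le_exp_of_nonneg (x := r * (‖w u g'‖ * ‖w v g‖)) (by positivity) n
    refine le_trans (le_of_eq ?_) (h.trans ?_)
    · refine Finset.sum_congr rfl fun k _ => ?_
      rw [mul_pow, mul_pow]
      ring
    · rw [← Real.exp_add, ← Real.exp_add, Real.exp_le_exp]
      have h2 := w_norm_sq u g'
      have h3 := w_norm_sq v g
      have h4 : 2 * (‖w u g'‖ * ‖w v g‖) ≤ ‖w u g'‖ ^ 2 + ‖w v g‖ ^ 2 := by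
        nlinarith [sq_nonneg (‖w u g'‖ - ‖w v g‖)]
      nlinarith

/-- Mehler's formula with an integral on the right -/
lemma mehler0 (r u v : ℝ) (h0 : 0 ≤ r) (h1 : r < 1) :
    HasSum (fun k : ℕ => (((r ^ k / (k ! : ℝ) * (HP k).eval u * (HP k).eval v : ℝ)) : ℂ))
      (∫ g, Complex.exp (r * w v g * u - (r * w v g) ^ 2 / 2) ∂(gaussianReal 0 1)) := by
  have h := hasSum_integral_of_summable_integral_norm (μ := gaussianReal 0 1)
    (F := fun (k : ℕ) (g : ℝ) => (((r ^ k / (k ! : ℝ) * (HP k).eval u : ℝ) : ℂ)) * w v g ^ k)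
    (fun k => (wpow_int v k).const_mul _) (summ2 r u v h0 h1)
  simp only [integral_const_mul, He_eq] at h
  have e : ∀ g : ℝ, ∑' k : ℕ, (((r ^ k / (k ! : ℝ) * (HP k).eval u : ℝ) : ℂ)) * w v g ^ k =
      Complex.exp (r * w v g * u - (r * w v g) ^ 2 / 2) := by
    intro g
    rw [← (gen (r * w v g) u).tsum_eq]
    refine tsum_congr fun k => ?_
    push_cast
    rw [mul_pow]
    ring
  simp_rw [e] at h
  have e2 : (fun k : ℕ => (((r ^ k / (k ! : ℝ) * (HP k).eval u * (HP k).eval v : ℝ)) : ℂ)) =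
      fun k : ℕ => (((r ^ k / (k ! : ℝ) * (HP k).eval u : ℝ) : ℂ)) * (((HP k).eval v : ℝ) : ℂ) := by
    funext k
    push_cast
    ring
  rw [e2]
  exact h

lemma rhs (r u v : ℝ) (h0 : 0 ≤ r) (h1 : r < 1) :
    ∫ g, Complex.exp (r * w v g * u - (r * w v g) ^ 2 / 2) ∂(gaussianReal 0 1) =
      (((√(1 - r ^ 2))⁻¹ * Real.exp ((2 * r * u * v - r ^ 2 * (u ^ 2 + v ^ 2)) /
        (2 * (1 - r ^ 2))) : ℝ) : ℂ) := by
  have hr2 : 0 < 1 - r ^ 2 := by nlinarith
  rw [integral_gaussianReal_eq_integral_smul one_ne_zero]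
  have e1 : ∀ g : ℝ, gaussianPDFReal 0 1 g • Complex.exp (r * w v g * u - (r * w v g) ^ 2 / 2) =
      (((√(2 * Real.pi))⁻¹ : ℝ) : ℂ) * Complex.exp ((-(1 - (r : ℂ) ^ 2) / 2) * (g : ℂ) ^ 2 +
        (Complex.I * (r * u - r ^ 2 * v)) * g + (r * u * v - r ^ 2 * v ^ 2 / 2)) := by
    intro g
    rw [Complex.real_smul]
    simp only [gaussianPDFReal, NNReal.coe_one, mul_one, sub_zero]
    rw [Complex.ofReal_mul, mul_assoc, Complex.ofReal_exp, ← Complex.exp_add]
    congr 2
    unfold w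
    push_cast
    linear_combination (-(r : ℂ) ^ 2 * (g : ℂ) ^ 2 / 2) * Complex.I_sq
  simp_rw [e1]
  rw [integral_const_mul, integral_cexp_quadratic (by
    have : ((-(1 - (r : ℂ) ^ 2) / 2)) = ((-(1 - r ^ 2) / 2 : ℝ) : ℂ) := by push_cast; ring
    rw [this, Complex.ofReal_re]
    linarith)]
  have e2 : ((Real.pi : ℂ) / -(-(1 - (r : ℂ) ^ 2) / 2)) = ((2 * Real.pi / (1 - r ^ 2) : ℝ) : ℂ) := by
    push_cast
    have h3 : (1 : ℂ) - (r : ℂ) ^ 2 ≠ 0 := by
      have : ((1 - r ^ 2 : ℝ) : ℂ) ≠ 0 := Complex.ofReal_ne_zero.2 hr2.ne'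
      simpa using this
    field_simp
  have e3 : ((r : ℂ) * u * v - r ^ 2 * v ^ 2 / 2 - (Complex.I * (r * u - r ^ 2 * v)) ^ 2 /
      (4 * (-(1 - (r : ℂ) ^ 2) / 2))) =
      (((2 * r * u * v - r ^ 2 * (u ^ 2 + v ^ 2)) / (2 * (1 - r ^ 2)) : ℝ) : ℂ) := by
    push_cast
    have h3 : (1 : ℂ) - (r : ℂ) ^ 2 ≠ 0 := by
      have : ((1 - r ^ 2 : ℝ) : ℂ) ≠ 0 := Complex.ofReal_ne_zero.2 hr2.ne'
      simpa using this
    rw [mul_pow, Complex.I_sq]
    field_simp
    ring
  rw [e2, e3]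
  have e4 : (((2 * Real.pi / (1 - r ^ 2) : ℝ) : ℂ)) ^ (1 / 2 : ℂ) =
      ((√(2 * Real.pi / (1 - r ^ 2)) : ℝ) : ℂ) := by
    rw [Real.sqrt_eq_rpow, Complex.ofReal_cpow (by positivity)]
    push_cast
    rfl
  rw [e4, ← mul_assoc, ← Complex.ofReal_mul, ← Complex.ofReal_exp, ← Complex.ofReal_mul]
  congr 2
  rw [Real.sqrt_div (by positivity)]
  have h4 : √(2 * Real.pi) ≠ 0 := (Real.sqrt_pos.2 (by positivity)).ne'
  field_simp

/-- **GP-H2.** Mehler's formula. -/
theorem mehler : Pool.Agent.W259.GP.S_mehler := by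
  intro r h0 h1 x y
  have hr2 : 0 < 1 - r ^ 2 := by nlinarith
  have h := mehler0 r (√2 * x) (√2 * y) h0 h1
  rw [rhs r _ _ h0 h1, Complex.hasSum_ofReal] at h
  have h2 := h.mul_left ((√Real.pi)⁻¹ * Real.exp (-(x ^ 2 + y ^ 2) / 2))
  have s2 : √(2 : ℝ) ^ 2 = 2 := Real.sq_sqrt (by norm_num)
  have e1 : (√Real.pi)⁻¹ * Real.exp (-(x ^ 2 + y ^ 2) / 2) *
      ((√(1 - r ^ 2))⁻¹ * Real.exp ((2 * r * (√2 * x) * (√2 * y) -
        r ^ 2 * ((√2 * x) ^ 2 + (√2 * y) ^ 2)) / (2 * (1 - r ^ 2)))) =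
      (√(Real.pi * (1 - r ^ 2)))⁻¹ *
      Real.exp ((4 * r * x * y - (1 + r ^ 2) * (x ^ 2 + y ^ 2)) / (2 * (1 - r ^ 2))) := by
    rw [Real.sqrt_mul Real.pi_pos.le, mul_inv]
    have e2 : (4 * r * x * y - (1 + r ^ 2) * (x ^ 2 + y ^ 2)) / (2 * (1 - r ^ 2)) =
        -(x ^ 2 + y ^ 2) / 2 + (2 * r * (√2 * x) * (√2 * y) -
        r ^ 2 * ((√2 * x) ^ 2 + (√2 * y) ^ 2)) / (2 * (1 - r ^ 2)) := by
      field_simp
      rw [s2]
      ring
    rw [e2, Real.exp_add]
    ring
  rw [e1] at h2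
  have hfun : (fun k => r ^ k * (Pool.Agent.W259.GP.hf k x * Pool.Agent.W259.GP.hf k y)) =
      fun k : ℕ => (√Real.pi)⁻¹ * Real.exp (-(x ^ 2 + y ^ 2) / 2) *
        (r ^ k / (k ! : ℝ) * (HP k).eval (√2 * x) * (HP k).eval (√2 * y)) := ?_
  · rw [hfun]
    exact h2
  funext k
  unfold Pool.Agent.W259.GP.hf
  have e4 : ∀ z : ℝ, Polynomial.aeval z (Polynomial.hermite k) = (HP k).eval z := by
    intro z
    unfold HP
    rw [Polynomial.aeval_def, Polynomial.eval_map]
    rfl
  rw [e4, e4]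
  have e5 : √((k.factorial : ℝ) * √Real.pi) * √((k.factorial : ℝ) * √Real.pi) =
      (k.factorial : ℝ) * √Real.pi := Real.mul_self_sqrt (by positivity)
  have e6 : Real.exp (-(x ^ 2 + y ^ 2) / 2) = Real.exp (-x ^ 2 / 2) * Real.exp (-y ^ 2 / 2) := by
    rw [← Real.exp_add]
    congr 1
    ring
  have e7 : r ^ k * ((√((k.factorial : ℝ) * √Real.pi))⁻¹ * (HP k).eval (√2 * x) *
      Real.exp (-x ^ 2 / 2) * ((√((k.factorial : ℝ) * √Real.pi))⁻¹ * (HP k).eval (√2 * y) *
      Real.exp (-y ^ 2 / 2))) = r ^ k * (√((k.factorial : ℝ) * √Real.pi) *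
      √((k.factorial : ℝ) * √Real.pi))⁻¹ * (HP k).eval (√2 * x) * (HP k).eval (√2 * y) *
      (Real.exp (-x ^ 2 / 2) * Real.exp (-y ^ 2 / 2)) := by
    rw [mul_inv]
    ring
  rw [e7, e5, e6, mul_inv]
  ring

end Pool.Agent.W342.GP
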